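import Pool.Agent.Lib.MP_919a9a_lc.Entangled

/-!
# Existence of generic families under the continuum hypothesis
-/

set_option autoImplicit false

namespace Pool.Agent.Lib.MP_919a9a_lc

open Set Function Cardinal

/-- The closed subsets of finite powers of Cantor space. -/
abbrev ClosedSets : Type := Σ m : ℕ, {K : Set (Fin m → C) // IsClosed K}

/-- The code of a closed set: the basic boxes disjoint from it. -/
def closedCode (X : ClosedSets) : ℕ × Set (ℕ) :=
  (X.1, {n | ∃ (v : Fin X.1 → Finset ℕ) (N : ℕ), n = Encodable.encode (v, N) ∧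
    ∀ q : Fin X.1 → C, (∀ l, q l ∈ cyl (v l) N) → q ∉ X.2.1})

theorem closedCode_aux {m : ℕ} {K K' : Set (Fin m → C)} (hK : IsClosed K)
    (h : {n : ℕ | ∃ (v : Fin m → Finset ℕ) (N : ℕ), n = Encodable.encode (v, N) ∧
      ∀ q : Fin m → C, (∀ l, q l ∈ cyl (v l) N) → q ∉ K} ⊆
      {n : ℕ | ∃ (v : Fin m → Finset ℕ) (N : ℕ), n = Encodable.encode (v, N) ∧
      ∀ q : Fin m → C, (∀ l, q l ∈ cyl (v l) N) → q ∉ K'}) : K' ⊆ K := by
  intro q hq
  by_contra hqK
  obtain ⟨N, hN⟩ := exists_agree_subset_pi hK.isOpen_compl hqK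
  have h1 : Encodable.encode ((fun l => code (q l) N, N) : (Fin m → Finset ℕ) × ℕ) ∈
      {n : ℕ | ∃ (v : Fin m → Finset ℕ) (N : ℕ), n = Encodable.encode (v, N) ∧
      ∀ q : Fin m → C, (∀ l, q l ∈ cyl (v l) N) → q ∉ K} := by
    refine ⟨_, _, rfl, ?_⟩
    intro r hr hrK
    refine hN r ?_ hrK
    intro l i hi
    rw [hr l i hi, chi_code hi]
  obtain ⟨v, N', h2, h3⟩ := h h1
  have h4 := Encodable.encode_injective h2
  have h5 : (fun l => code (q l) N) = v := congrArg Prod.fst h4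
  have h6 : N = N' := congrArg Prod.snd h4
  apply h3 q _ hq
  intro l
  rw [← h5, ← h6]
  exact mem_cyl_code (q l) N

theorem closedCode_injective : Injective closedCode := by
  rintro ⟨m, K, hK⟩ ⟨m', K', hK'⟩ h
  have hm : m = m' := congrArg Prod.fst h
  subst hm
  have h2 := congrArg Prod.snd h
  have h3 : K = K' := by
    apply Set.Subset.antisymm
    · exact closedCode_aux hK' h2.symm.subset
    · exact closedCode_aux hK h2.subset
  subst h3
  rfl

theorem mk_closedSets : #ClosedSets ≤ 𝔠 := by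
  refine (mk_le_of_injective closedCode_injective).trans ?_
  simp

/-- The index set: the first uncountable cardinal as a well order. -/
abbrev Idx : Type := (ℵ₁ : Cardinal.{0}).ord.ToType

theorem Idx_Iio (i : Idx) : (Set.Iio i).Countable := by
  rw [← Cardinal.le_aleph0_iff_set_countable, ← Order.lt_succ_iff, Cardinal.succ_aleph0]
  have h := mk_Iio_lt i
  simpa using h

theorem Idx_Iic (i : Idx) : (Set.Iic i).Countable := by
  rw [← Set.Iio_insert]
  exact (Idx_Iio i).insert i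

theorem Idx_uncountable : ¬ Countable Idx := by
  rw [← Cardinal.mk_le_aleph0_iff]
  have h : #Idx = ℵ₁ := by simp
  rw [h, not_le]
  exact Cardinal.aleph0_lt_aleph_one

theorem exists_enumeration (CH : 𝔠 = (ℵ₁ : Cardinal.{0})) :
    ∃ Kset : Idx → Σ m, Set (Fin m → C),
      ∀ (m : ℕ) (K : Set (Fin m → C)), IsClosed K → ∃ j, Kset j = ⟨m, K⟩ := by
  have h1 : #ClosedSets ≤ #Idx := by
    have h : #Idx = ℵ₁ := by simp
    rw [h, ← CH]
    exact mk_closedSets
  obtain ⟨ι⟩ := h1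
  have : Nonempty ClosedSets := ⟨⟨0, ∅, isClosed_empty⟩⟩
  refine ⟨fun i => ⟨(Function.invFun ι i).1, (Function.invFun ι i).2.1⟩, ?_⟩
  intro m K hK
  refine ⟨ι ⟨m, K, hK⟩, ?_⟩
  simp only
  rw [Function.leftInverse_invFun ι.injective ⟨m, K, hK⟩]

theorem exists_generic (CH : 𝔠 = (ℵ₁ : Cardinal.{0})) : ∃ e : Idx → C, LateAvoid e := by
  obtain ⟨Kset, hKset⟩ := exists_enumeration CH
  obtain ⟨e, he⟩ := exists_rec (Req Kset) (Req_exists Kset Idx_Iio) (Req_congr Kset)
  refine ⟨e, ?_⟩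
  intro m K hK hint
  obtain ⟨j, hj⟩ := hKset m K hK
  exact ⟨j, fun α hα hlt => avoid Kset he m j [] K hj hK hint α hα hlt⟩

end Pool.Agent.Lib.MP_919a9a_lc
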