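import Mathlib

/-!
# Cantor space: finite modifications, the homogeneity maps, twisted order embeddings
-/

set_option autoImplicit false

namespace Pool.Agent.Lib.MP_919a9a_lc

open Set Function

/-- Cantor space. -/
abbrev C : Type := ℕ → Bool

/-- A function on Cantor space depending on finitely many coordinates is continuous. -/
theorem continuous_of_initial {β : Type*} [TopologicalSpace β] (n : ℕ) (f : C → β)
    (h : ∀ x y : C, (∀ i < n, x i = y i) → f x = f y) : Continuous f := by
  have hf : f = (fun p : Fin n → Bool => f (fun i => if hi : i < n then p ⟨i, hi⟩ else false)) ∘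
      (fun x : C => fun i : Fin n => x i) := by
    funext x
    apply h
    intro i hi
    simp [hi]
  rw [hf]
  exact continuous_of_discreteTopology.comp (continuous_pi fun i => continuous_apply _)

/-- Flip the coordinates in the finite set `g`. -/
def act (g : Finset ℕ) (x : C) : C := fun i => xor (x i) (decide (i ∈ g))

theorem act_apply (g : Finset ℕ) (x : C) (i : ℕ) : act g x i = xor (x i) (decide (i ∈ g)) := rfl

theorem act_act (g h : Finset ℕ) (x : C) : act g (act h x) = act (symmDiff g h) x := by
  funext i
  simp only [act_apply, Finset.mem_symmDiff]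
  by_cases h1 : i ∈ g <;> by_cases h2 : i ∈ h <;> simp [h1, h2]

/-- The homeomorphism of Cantor space exchanging `x` with `y` by changing finitely many
coordinates of every other point. -/
noncomputable def swapFun (x y : C) (z : C) : C := fun i =>
  open Classical in if ∀ j < i, z j = x j then xor (z i) (xor (x i) (y i)) else z i

theorem swapFun_pos {x y z : C} {i : ℕ} (h : ∀ j < i, z j = x j) :
    swapFun x y z i = xor (z i) (xor (x i) (y i)) := by
  unfold swapFun
  exact if_pos h

theorem swapFun_neg {x y z : C} {i : ℕ} (h : ¬ ∀ j < i, z j = x j) :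
    swapFun x y z i = z i := by
  unfold swapFun
  exact if_neg h

theorem swapFun_agree_iff (x y z : C) (i : ℕ) :
    (∀ j < i, swapFun x y z j = y j) ↔ ∀ j < i, z j = x j := by
  induction i with
  | zero => simp
  | succ i ih =>
    constructor
    · intro h
      have h1 : ∀ j < i, z j = x j := ih.1 fun j hj => h j (by omega)
      intro j hj
      rcases Nat.lt_succ_iff_lt_or_eq.1 hj with hj' | rfl
      · exact h1 j hj'
      · have h2 := h j (by omega)
        rw [swapFun_pos h1] at h2
        revert h2
        cases z j <;> cases x j <;> cases y j <;> simp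
    · intro h
      have h1 : ∀ j < i, swapFun x y z j = y j := ih.2 fun j hj => h j (by omega)
      intro j hj
      rcases Nat.lt_succ_iff_lt_or_eq.1 hj with hj' | rfl
      · exact h1 j hj'
      · rw [swapFun_pos (fun k hk => h k (by omega)), h j (by omega)]
        cases x j <;> cases y j <;> simp

theorem swapFun_swapFun (x y z : C) : swapFun y x (swapFun x y z) = z := by
  funext i
  by_cases h : ∀ j < i, z j = x j
  · have h2 := (swapFun_agree_iff x y z i).2 h
    rw [swapFun_pos h2, swapFun_pos h]
    cases z i <;> cases x i <;> cases y i <;> simp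
  · have h2 : ¬ ∀ j < i, swapFun x y z j = y j := fun h' => h ((swapFun_agree_iff x y z i).1 h')
    rw [swapFun_neg h2, swapFun_neg h]

theorem swapFun_self (x y : C) : swapFun x y x = y := by
  funext i
  rw [swapFun_pos (fun _ _ => rfl)]
  cases x i <;> cases y i <;> simp

theorem swapFun_continuous (x y : C) : Continuous (swapFun x y) := by
  refine continuous_pi fun i => ?_
  apply continuous_of_initial (i + 1)
  intro z w hzw
  have h1 : (∀ j < i, z j = x j) ↔ ∀ j < i, w j = x j := by
    constructor
    · intro h j hj
      rw [← hzw j (by omega)]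
      exact h j hj
    · intro h j hj
      rw [hzw j (by omega)]
      exact h j hj
  by_cases h : ∀ j < i, z j = x j
  · rw [swapFun_pos h, swapFun_pos (h1.1 h), hzw i (by omega)]
  · rw [swapFun_neg h, swapFun_neg (fun h' => h (h1.2 h')), hzw i (by omega)]

/-- The swap homeomorphism. -/
noncomputable def swapHomeo (x y : C) : C ≃ₜ C where
  toFun := swapFun x y
  invFun := swapFun y x
  left_inv := swapFun_swapFun x y
  right_inv := swapFun_swapFun y x
  continuous_toFun := swapFun_continuous x y
  continuous_invFun := swapFun_continuous y x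

/-- For `z ≠ x`, the swap map only changes finitely many coordinates of `z`. -/
theorem swapFun_eq_act (x y z : C) (hz : z ≠ x) : ∃ g : Finset ℕ, swapFun x y z = act g z := by
  obtain ⟨n, hn⟩ : ∃ n, z n ≠ x n := by
    by_contra h
    push Not at h
    exact hz (funext h)
  classical
  refine ⟨(Finset.range (n + 1)).filter fun i => (∀ j < i, z j = x j) ∧ x i ≠ y i, ?_⟩
  funext i
  by_cases h : ∀ j < i, z j = x j
  · have hi : i < n + 1 := by
      by_contra hi
      exact hn (h n (by omega))
    rw [swapFun_pos h, act_apply]
    by_cases hxy : x i = y i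
    · have h3 : ¬ (i ∈ (Finset.range (n + 1)).filter fun i => (∀ j < i, z j = x j) ∧ x i ≠ y i) := by
        intro h4
        exact (Finset.mem_filter.1 h4).2.2 hxy
      rw [decide_eq_false h3, hxy]
      simp
    · have h3 : i ∈ (Finset.range (n + 1)).filter fun i => (∀ j < i, z j = x j) ∧ x i ≠ y i :=
        Finset.mem_filter.2 ⟨Finset.mem_range.2 hi, h, hxy⟩
      rw [decide_eq_true h3]
      revert hxy
      cases x i <;> cases y i <;> simp
  · have h3 : ¬ (i ∈ (Finset.range (n + 1)).filter fun i => (∀ j < i, z j = x j) ∧ x i ≠ y i) := by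
      intro h4
      exact h (Finset.mem_filter.1 h4).2.1
    rw [swapFun_neg h, act_apply, decide_eq_false h3]
    simp

/-- A set closed under finite modifications is preserved by the swap maps between its points. -/
theorem swapFun_mem {D : Set C} (hD : ∀ x ∈ D, ∀ g : Finset ℕ, act g x ∈ D) {x y : C}
    (hy : y ∈ D) {z : C} (hz : z ∈ D) : swapFun x y z ∈ D := by
  by_cases h : z = x
  · subst h
    rw [swapFun_self]
    exact hy
  · obtain ⟨g, hg⟩ := swapFun_eq_act x y z h
    rw [hg]
    exact hD z hz g

/-- Every subset of Cantor space closed under finite modifications is homogeneous. -/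
theorem homogeneous_of_act_closed {D : Set C} (hD : ∀ x ∈ D, ∀ g : Finset ℕ, act g x ∈ D)
    (x y : D) : ∃ h : D ≃ₜ D, h x = y := by
  refine ⟨(swapHomeo x.1 y.1).subtype (p := fun z => z ∈ D) (q := fun z => z ∈ D) ?_, ?_⟩
  · intro z
    constructor
    · intro hz
      exact swapFun_mem hD y.2 hz
    · intro hz
      have := swapFun_mem hD (x := y.1) (y := x.1) x.2 hz
      have h2 : swapFun y.1 x.1 (swapHomeo x.1 y.1 z) = z := swapFun_swapFun x.1 y.1 z
      rw [h2] at this
      exact this
  · apply Subtype.ext
    exact swapFun_self x.1 y.1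

end Pool.Agent.Lib.MP_919a9a_lc
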