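import Pool.Agent.Lib.MP_919a9a_lc.Generic

/-!
# Entangledness of the image of a generic family
-/

set_option autoImplicit false

namespace Pool.Agent.Lib.MP_919a9a_lc

open Set Function

theorem exists_mem_agree {m : ℕ} {Q : Set (Fin m → C)} {q : Fin m → C} (hq : q ∈ closure Q)
    (M : ℕ) : ∃ r ∈ Q, ∀ l, ∀ i < M, r l i = q l i := by
  let f : (Fin m → C) → (Fin m → Fin M → Bool) := fun r l i => r l i
  have hf : Continuous f :=
    continuous_pi fun l => continuous_pi fun i => (continuous_apply (i : ℕ)).comp (continuous_apply l)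
  have hU : IsOpen (f ⁻¹' {f q}) := (isOpen_discrete _).preimage hf
  obtain ⟨r, hr1, hr2⟩ := mem_closure_iff.1 hq _ hU rfl
  refine ⟨r, hr2, fun l i hi => ?_⟩
  have h1 : f r = f q := hr1
  exact congrFun (congrFun h1 l) ⟨i, hi⟩

/-- The set of all finite modifications of the points of a family. -/
def orbitSet {I : Type} (e : I → C) : Set C := {x | ∃ (g : Finset ℕ) (i : I), x = act g (e i)}

theorem orbitSet_act {I : Type} (e : I → C) : ∀ x ∈ orbitSet e, ∀ g : Finset ℕ,
    act g x ∈ orbitSet e := by
  rintro x ⟨h, i, rfl⟩ g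
  exact ⟨symmDiff g h, i, act_act g h (e i)⟩

/-- The set of reals associated with a family of points. -/
def realSet {I : Type} (e : I → C) : Set ℝ := Set.range fun x : orbitSet e => phi x

/-- The set of reals is homogeneous. -/
theorem realSet_homogeneous {I : Type} (e : I → C) (x y : realSet e) :
    ∃ h : realSet e ≃ₜ realSet e, h x = y := by
  have hemb : Topology.IsEmbedding (fun x : orbitSet e => phi x) :=
    phi_isEmbedding.comp Topology.IsEmbedding.subtypeVal
  let H : orbitSet e ≃ₜ realSet e := hemb.toHomeomorph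
  obtain ⟨h, hh⟩ := homogeneous_of_act_closed (orbitSet_act e) (H.symm x) (H.symm y)
  refine ⟨(H.symm.trans h).trans H, ?_⟩
  show H (h (H.symm x)) = y
  rw [hh]
  exact H.apply_symm_apply y

/-- Genericity of a family: distinct late tuples avoid closed nowhere dense sets. -/
def LateAvoid {I : Type} [LinearOrder I] (e : I → C) : Prop :=
  ∀ (m : ℕ) (K : Set (Fin m → C)), IsClosed K → interior K = ∅ →
    ∃ j : I, ∀ α : Fin m → I, Injective α → (∀ l, j < α l) → (fun l => e (α l)) ∉ K

section

variable {I : Type} [LinearOrder I] {e : I → C}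

theorem fiber_countable (hI : ∀ i : I, (Set.Iic i).Countable) (he : LateAvoid e) (x : C) :
    {i | e i = x}.Countable := by
  have hcl : IsClosed {q : Fin 1 → C | q 0 = x} :=
    isClosed_eq (continuous_apply 0) continuous_const
  have hint : interior {q : Fin 1 → C | q 0 = x} = ∅ := by
    by_contra hne
    obtain ⟨q, hq⟩ := Set.nonempty_iff_ne_empty.2 hne
    obtain ⟨n, hn⟩ := exists_agree_subset_pi isOpen_interior hq
    have h1 : (fun _ : Fin 1 => act {n} (q 0)) ∈ interior {q : Fin 1 → C | q 0 = x} := by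
      apply hn
      intro l i hi
      have hl : l = 0 := Subsingleton.elim _ _
      subst hl
      have : i ≠ n := by omega
      simp [act_apply, this]
    have h2' := interior_subset h1
    have h3' := interior_subset hq
    have h2 : act {n} (q 0) = x := h2'
    have h3 : q 0 = x := h3'
    have h4 : act {n} (q 0) n = q 0 n := by rw [h2, h3]
    simp [act_apply] at h4
  obtain ⟨j, hj⟩ := he 1 _ hcl hint
  refine (hI j).mono ?_
  intro i hi
  by_contra hij
  have h1 : j < i := not_le.1 hij
  exact hj (fun _ => i) (fun a b _ => Subsingleton.elim _ _) (fun _ => h1) hi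

theorem realSet_uncountable (hI : ∀ i : I, (Set.Iic i).Countable) (he : LateAvoid e)
    (hun : ¬ Countable I) : ¬ (realSet e).Countable := by
  intro hc
  apply hun
  have h1 : (Set.range e).Countable := by
    have h2 : (phi '' (Set.range e)).Countable := by
      refine hc.mono ?_
      rintro _ ⟨_, ⟨i, rfl⟩, rfl⟩
      refine ⟨⟨e i, ∅, i, ?_⟩, rfl⟩
      funext n
      simp [act_apply]
    exact Set.countable_of_injective_of_countable_image phi_injective.injOn h2
  have h3 : (⋃ x ∈ Set.range e, {i | e i = x}).Countable :=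
    h1.biUnion fun x _ => fiber_countable hI he x
  have h4 : (⋃ x ∈ Set.range e, {i | e i = x}) = (univ : Set I) := by
    ext i
    simp
  rw [h4] at h3
  exact Set.countable_univ_iff.1 h3

/-- Every tuple of points of the set of reals has a standard representation. -/
theorem exists_repr {k : ℕ} (a : Fin k → ℝ) (ha : ∀ i, a i ∈ realSet e) :
    ∃ (d : (Σ m : ℕ, (Fin k → Fin m)) × (Fin k → Finset ℕ)) (β : Fin d.1.1 → I),
      Surjective d.1.2 ∧ Injective β ∧ ∀ i, a i = phi (act (d.2 i) (e (β (d.1.2 i)))) := by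
  classical
  have h1 : ∀ i, ∃ (g : Finset ℕ) (α : I), a i = phi (act g (e α)) := by
    intro i
    obtain ⟨⟨x, g, α, hx⟩, hx'⟩ := ha i
    exact ⟨g, α, by rw [← hx', ← hx]⟩
  choose g α h2 using h1
  let T : Finset I := Finset.univ.image α
  let eT := T.equivFin
  have hmem : ∀ i, α i ∈ T := fun i => Finset.mem_image_of_mem α (Finset.mem_univ i)
  refine ⟨(⟨T.card, fun i => eT ⟨α i, hmem i⟩⟩, g), fun l => (eT.symm l).1, ?_, ?_, ?_⟩
  · intro l
    obtain ⟨i, _, hi⟩ := Finset.mem_image.1 (eT.symm l).2
    refine ⟨i, ?_⟩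
    show eT ⟨α i, hmem i⟩ = l
    rw [← Equiv.eq_symm_apply]
    exact Subtype.ext hi
  · intro l l' h
    exact eT.symm.injective (Subtype.ext h)
  · intro i
    show a i = phi (act (g i) (e (eT.symm (eT ⟨α i, hmem i⟩)).1))
    rw [Equiv.symm_apply_apply]
    exact h2 i

theorem entangled_main (hI : ∀ i : I, (Set.Iic i).Countable) (he : LateAvoid e)
    {k : ℕ} (hk : 0 < k) (F : Set (Fin k → ℝ)) (hF : ¬ F.Countable)
    (h1 : ∀ a ∈ F, Injective a ∧ ∀ i, a i ∈ realSet e)
    (h2 : ∀ a ∈ F, ∀ b ∈ F, a ≠ b → ∀ i j, a i ≠ b j) (t : Fin k → Bool) :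
    ∃ a ∈ F, ∃ b ∈ F, a ≠ b ∧ ∀ i, (t i = false → a i < b i) ∧ (t i = true → b i < a i) := by
  classical
  -- a countable set of patterns
  let Dt := (Σ m : ℕ, (Fin k → Fin m)) × (Fin k → Finset ℕ)
  let Fd : Dt → Set (Fin k → ℝ) := fun d => {a | a ∈ F ∧ ∃ β : Fin d.1.1 → I,
    Surjective d.1.2 ∧ Injective β ∧ ∀ i, a i = phi (act (d.2 i) (e (β (d.1.2 i))))}
  obtain ⟨d, hd⟩ : ∃ d, ¬ (Fd d).Countable := by
    by_contra hall
    push Not at hall
    apply hF
    refine (Set.countable_iUnion hall).mono ?_
    intro a ha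
    obtain ⟨d, β, h3⟩ := exists_repr a (h1 a ha).2
    exact Set.mem_iUnion.2 ⟨d, ha, β, h3⟩
  obtain ⟨⟨⟨m, c⟩, g⟩, rfl⟩ : ∃ d', d = d' := ⟨d, rfl⟩
  have hne : (Fd ((⟨m, c⟩, g) : Dt)).Nonempty := by
    by_contra h
    rw [Set.not_nonempty_iff_eq_empty] at h
    apply hd
    rw [h]
    exact Set.countable_empty
  have hc : Surjective c := by
    obtain ⟨a, _, β, h3, _⟩ := hne
    exact h3
  have h3 : ∀ a : Fd ((⟨m, c⟩, g) : Dt), ∃ β : Fin m → I, Injective β ∧
      ∀ i, a.1 i = phi (act (g i) (e (β (c i)))) := by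
    rintro ⟨a, _, β, _, h4, h5⟩
    exact ⟨β, h4, h5⟩
  choose β hβ1 hβ2 using h3
  let Q : Set (Fin m → C) := Set.range fun a : Fd ((⟨m, c⟩, g) : Dt) => fun l => e (β a l)
  obtain ⟨j, hj⟩ := he m (frontier (closure Q)) isClosed_frontier (interior_frontier isClosed_closure)
  -- find a late tuple
  obtain ⟨a₀, ha₀⟩ : ∃ a : Fd ((⟨m, c⟩, g) : Dt), ∀ l, j < β a l := by
    by_contra hall
    push Not at hall
    choose l hl using hall
    apply hd
    have hcount : Countable (Set.Iic j) := (hI j).to_subtype
    have hinj : Injective (fun a : Fd ((⟨m, c⟩, g) : Dt) =>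
        ((l a, ⟨β a (l a), hl a⟩) : Fin m × Set.Iic j)) := by
      intro a b hab
      have hab1 : l a = l b := congrArg Prod.fst hab
      have hab2 : β a (l a) = β b (l b) := congrArg (fun p => (p.2 : Set.Iic j).1) hab
      obtain ⟨i, hi⟩ := hc (l a)
      by_contra hne'
      apply h2 a.1 a.2.1 b.1 b.2.1 (fun h => hne' (Subtype.ext h)) i i
      rw [hβ2 a i, hβ2 b i, hi, hab2, hab1]
    exact Set.countable_coe_iff.1 hinj.countable
  have hx1 : (fun l => e (β a₀ l)) ∈ closure Q := subset_closure ⟨a₀, rfl⟩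
  have hx2 : (fun l => e (β a₀ l)) ∈ interior (closure Q) := by
    by_contra hnot
    apply hj (β a₀) (hβ1 a₀) ha₀
    rw [isClosed_closure.frontier_eq]
    exact ⟨hx1, hnot⟩
  obtain ⟨N, hN⟩ := exists_agree_subset_pi isOpen_interior hx2
  -- distinctness of the modifications inside one class
  have hg : ∀ i i', c i = c i' → g i = g i' → i = i' := by
    intro i i' hci hgi
    apply (h1 a₀.1 a₀.2.1).1
    rw [hβ2 a₀ i, hβ2 a₀ i', hci, hgi]
  let u : Fin m → Finset ℕ := fun l => code (e (β a₀ l)) N
  let G : Finset (Finset ℕ) := Finset.univ.image g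
  let T : Fin m → Finset (Finset ℕ) := fun l =>
    (Finset.univ.filter fun i => c i = l ∧ t i = true).image g
  have hlev := fun l => exists_level (u l) G (T l) N
  choose n hn1 hn2 hn3 hn4 using hlev
  have hT : ∀ i, g i ∈ T (c i) ↔ t i = true := by
    intro i
    constructor
    · intro h
      obtain ⟨i', hi', hgi⟩ := Finset.mem_image.1 h
      have h4 := (Finset.mem_filter.1 hi').2
      have h5 : i' = i := hg i' i h4.1 hgi
      rw [← h5]
      exact h4.2
    · intro h
      exact Finset.mem_image.2 ⟨i, Finset.mem_filter.2 ⟨Finset.mem_univ _, rfl, h⟩, rfl⟩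
  have hG : ∀ i, g i ∈ G := fun i => Finset.mem_image_of_mem g (Finset.mem_univ i)
  let M : ℕ := Finset.univ.sup fun l => n l + 1
  have hM : ∀ l, n l < M := by
    intro l
    have : n l + 1 ≤ M := Finset.le_sup (f := fun l => n l + 1) (Finset.mem_univ l)
    omega
  -- the two target points
  have hq0 : (fun l => chi (u l)) ∈ closure Q := by
    apply interior_subset
    apply hN
    intro l i hi
    exact chi_code hi
  have hq1 : (fun l => act {n l} (chi (u l))) ∈ closure Q := by
    apply interior_subset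
    apply hN
    intro l i hi
    have h4 : i ≠ n l := by
      have := hn1 l
      omega
    show xor (chi (u l) i) (decide (i ∈ ({n l} : Finset ℕ))) = e (β a₀ l) i
    have h5 : decide (i ∈ ({n l} : Finset ℕ)) = false := by simp [h4]
    rw [h5, Bool.xor_false]
    exact chi_code hi
  obtain ⟨_, ⟨a, rfl⟩, ha'⟩ := exists_mem_agree hq0 M
  obtain ⟨_, ⟨b, rfl⟩, hb'⟩ := exists_mem_agree hq1 M
  have ha : ∀ l, ∀ i < M, e (β a l) i = chi (u l) i := ha'
  have hb : ∀ l, ∀ i < M, e (β b l) i = act {n l} (chi (u l)) i := hb'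
  have hmain : ∀ i, (t i = false → a.1 i < b.1 i) ∧ (t i = true → b.1 i < a.1 i) := by
    intro i
    rw [hβ2 a i, hβ2 b i]
    have hu : chi (u (c i)) (n (c i)) = false := by
      unfold chi
      apply decide_eq_false
      intro h
      exact lt_irrefl _ (hn3 (c i) _ h)
    have hgn : decide (n (c i) ∈ g i) = false := by
      apply decide_eq_false
      intro h
      exact lt_irrefl _ (hn2 (c i) (g i) (hG i) _ h)
    have hagr1 : ∀ i' < n (c i), act (g i) (e (β a (c i))) i' = act (g i) (chi (u (c i))) i' := by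
      intro i' hi'
      have := ha (c i) i' (lt_trans hi' (hM _))
      simp only [act_apply]
      rw [this]
    have hagr2 : ∀ i' < n (c i), act (g i) (e (β b (c i))) i' = act (g i) (chi (u (c i))) i' := by
      intro i' hi'
      have := hb (c i) i' (lt_trans hi' (hM _))
      have h5 : decide (i' ∈ ({n (c i)} : Finset ℕ)) = false := by
        have : i' ≠ n (c i) := by omega
        simp [this]
      simp only [act_apply] at this ⊢
      rw [this, h5, Bool.xor_false]
    have hagr : ∀ i' < n (c i), act (g i) (e (β a (c i))) i' = act (g i) (e (β b (c i))) i' := by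
      intro i' hi'
      rw [hagr1 i' hi', hagr2 i' hi']
    have hea : act (g i) (e (β a (c i))) (n (c i)) = false := by
      have := ha (c i) (n (c i)) (hM _)
      simp only [act_apply]
      rw [this, hu, hgn]
      rfl
    have heb : act (g i) (e (β b (c i))) (n (c i)) = true := by
      have := hb (c i) (n (c i)) (hM _)
      simp only [act_apply] at this ⊢
      rw [this, hu, hgn]
      simp
    have hepsa : eps (n (c i)) (act (g i) (e (β a (c i)))) = true ↔ t i = true := by
      rw [eps_congr hagr1, hn4 (c i) (g i) (hG i), hT]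
    have hepsb : eps (n (c i)) (act (g i) (e (β b (c i)))) = true ↔ t i = true := by
      rw [eps_congr hagr2, hn4 (c i) (g i) (hG i), hT]
    constructor
    · intro ht
      have h5 : eps (n (c i)) (act (g i) (e (β a (c i)))) = false := by
        rw [Bool.eq_false_iff]
        intro h
        rw [hepsa.1 h] at ht
        exact absurd ht (by simp)
      have h6 : eps (n (c i)) (act (g i) (e (β b (c i)))) = false := by
        rw [Bool.eq_false_iff]
        intro h
        rw [hepsb.1 h] at ht
        exact absurd ht (by simp)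
      apply phi_lt hagr
      · rw [hea, h5]
        rfl
      · rw [heb, h6]
        rfl
    · intro ht
      apply phi_lt (fun i' hi' => (hagr i' hi').symm)
      · rw [heb, hepsb.2 ht]
        rfl
      · rw [hea, hepsa.2 ht]
        rfl
  refine ⟨a.1, a.2.1, b.1, b.2.1, ?_, hmain⟩
  intro hab
  have h5 := hmain ⟨0, hk⟩
  rw [hab] at h5
  cases ht : t ⟨0, hk⟩
  · exact lt_irrefl _ (h5.1 ht)
  · exact lt_irrefl _ (h5.2 ht)

end

end Pool.Agent.Lib.MP_919a9a_lc
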