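import Pool.Agent.Lib.MP_919a9a_lc.Twist

/-!
# Generic families of points of Cantor space

Along a well order with countable initial segments we choose points of Cantor space so that tuples
of distinct late points avoid prescribed closed nowhere dense sets of every finite power.
-/

set_option autoImplicit false

namespace Pool.Agent.Lib.MP_919a9a_lc

open Set Function

/-- Basic clopen subsets of Cantor space. -/
def cyl (u : Finset ℕ) (n : ℕ) : Set C := {x | ∀ i < n, x i = chi u i}

theorem cyl_isOpen (u : Finset ℕ) (n : ℕ) : IsOpen (cyl u n) := by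
  classical
  have hc : Continuous (fun x : C => decide (∀ i < n, x i = chi u i)) := by
    apply continuous_of_initial n
    intro x y h
    apply decide_eq_decide.2
    constructor
    · intro h1 i hi
      rw [← h i hi]
      exact h1 i hi
    · intro h1 i hi
      rw [h i hi]
      exact h1 i hi
  have : cyl u n = (fun x : C => decide (∀ i < n, x i = chi u i)) ⁻¹' {true} := by
    ext x
    simp [cyl]
  rw [this]
  exact (isOpen_discrete _).preimage hc

theorem exists_agree_subset {U : Set C} (hU : IsOpen U) {y : C} (hy : y ∈ U) :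
    ∃ n : ℕ, ∀ x : C, (∀ i < n, x i = y i) → x ∈ U := by
  obtain ⟨J, u, h1, h2⟩ := isOpen_pi_iff.1 hU y hy
  refine ⟨J.sup (fun i => i + 1), fun x hx => h2 ?_⟩
  intro i hi
  have h3 : i + 1 ≤ J.sup fun i => i + 1 := Finset.le_sup (f := fun i => i + 1) hi
  rw [hx i (by omega)]
  exact (h1 i hi).2

/-- The finite set coding the first `n` coordinates of a point. -/
def code (y : C) (n : ℕ) : Finset ℕ := (Finset.range n).filter fun i => y i = true

theorem chi_code {y : C} {n i : ℕ} (hi : i < n) : chi (code y n) i = y i := by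
  unfold chi code
  cases h : y i
  · apply decide_eq_false
    intro h1
    rw [(Finset.mem_filter.1 h1).2] at h
    exact absurd h (by simp)
  · exact decide_eq_true (Finset.mem_filter.2 ⟨Finset.mem_range.2 hi, h⟩)

theorem mem_cyl_code (y : C) (n : ℕ) : y ∈ cyl (code y n) n := fun _ hi => (chi_code hi).symm

theorem exists_cyl_subset {U : Set C} (hU : IsOpen U) {y : C} (hy : y ∈ U) :
    ∃ (u : Finset ℕ) (n : ℕ), cyl u n ⊆ U ∧ y ∈ cyl u n := by
  obtain ⟨n, hn⟩ := exists_agree_subset hU hy
  refine ⟨code y n, n, ?_, mem_cyl_code y n⟩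
  intro x hx
  apply hn
  intro i hi
  rw [hx i hi, chi_code hi]

theorem exists_agree_subset_pi {m : ℕ} {U : Set (Fin m → C)} (hU : IsOpen U) {y : Fin m → C}
    (hy : y ∈ U) : ∃ n : ℕ, ∀ x : Fin m → C, (∀ l, ∀ i < n, x l i = y l i) → x ∈ U := by
  obtain ⟨u, h1, h2⟩ := isOpen_pi_iff'.1 hU y hy
  choose n hn using fun l => exists_agree_subset (h1 l).1 (h1 l).2
  refine ⟨Finset.univ.sup n, fun x hx => h2 ?_⟩
  intro l _
  apply hn
  intro i hi
  apply hx
  exact lt_of_lt_of_le hi (Finset.le_sup (Finset.mem_univ l))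

/-- The codes of operations: a coordinate and a basic clopen set. -/
abbrev W : Type := ℕ × Finset ℕ × ℕ

/-- Remove one coordinate: keep the tuples all of whose extensions by points of a basic clopen set
lie in the given set. -/
def dropSet {m : ℕ} (K : Set (Fin (m + 1) → C)) (c : Fin (m + 1)) (u : Finset ℕ) (n : ℕ) :
    Set (Fin m → C) :=
  {p | ∀ x ∈ cyl u n, (c.insertNth x p : Fin (m + 1) → C) ∈ K}

/-- One operation applied to a set of finite tuples. -/
def step (q : Σ m, Set (Fin m → C)) (w : W) : Σ m, Set (Fin m → C) :=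
  match q with
  | ⟨0, K⟩ => ⟨0, K⟩
  | ⟨m + 1, K⟩ => ⟨m, dropSet K (Fin.ofNat (m + 1) w.1) w.2.1 w.2.2⟩

/-- Iterated operations. -/
def der (q : Σ m, Set (Fin m → C)) (ws : List W) : Σ m, Set (Fin m → C) := ws.foldl step q

theorem der_concat {q : Σ m, Set (Fin m → C)} {ws : List W} {m : ℕ} {K : Set (Fin (m + 1) → C)}
    (h : der q ws = ⟨m + 1, K⟩) (c : Fin (m + 1)) (u : Finset ℕ) (n : ℕ) :
    der q (ws ++ [(c.val, u, n)]) = ⟨m, dropSet K c u n⟩ := by
  have h1 : der q (ws ++ [(c.val, u, n)]) = step (der q ws) (c.val, u, n) := by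
    simp [der, List.foldl_append]
  rw [h1, h]
  simp [step]

theorem dropSet_isClosed {m : ℕ} {K : Set (Fin (m + 1) → C)} (hK : IsClosed K) (c : Fin (m + 1))
    (u : Finset ℕ) (n : ℕ) : IsClosed (dropSet K c u n) := by
  have : dropSet K c u n = ⋂ x ∈ cyl u n,
      (fun p : Fin m → C => (c.insertNth x p : Fin (m + 1) → C)) ⁻¹' K := by
    ext p
    simp [dropSet]
  rw [this]
  refine isClosed_biInter fun x _ => hK.preimage ?_
  exact Continuous.finInsertNth (A := fun _ => C) c continuous_const continuous_id

theorem dropSet_interior {m : ℕ} {K : Set (Fin (m + 1) → C)} (hK : interior K = ∅)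
    (c : Fin (m + 1)) (u : Finset ℕ) (n : ℕ) : interior (dropSet K c u n) = ∅ := by
  by_contra hne
  obtain ⟨q, hq⟩ := Set.nonempty_iff_ne_empty.2 hne
  let V : Set (Fin (m + 1) → C) :=
    (fun r => r c) ⁻¹' (cyl u n) ∩ (fun r l => r (c.succAbove l)) ⁻¹' (interior (dropSet K c u n))
  have hV : IsOpen V := by
    apply IsOpen.inter
    · exact (cyl_isOpen u n).preimage (continuous_apply c)
    · exact isOpen_interior.preimage (continuous_pi fun l => continuous_apply _)
  have hVK : V ⊆ K := by
    rintro r ⟨h1, h2⟩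
    have h3 := interior_subset h2
    have h4 := h3 (r c) h1
    have h5 : (c.insertNth (r c) (fun l => r (c.succAbove l)) : Fin (m + 1) → C) = r :=
      Fin.insertNth_self_removeNth c r
    rwa [h5] at h4
  have hmem : (c.insertNth (chi u) q : Fin (m + 1) → C) ∈ V := by
    constructor
    · show (c.insertNth (chi u) q : Fin (m + 1) → C) c ∈ cyl u n
      rw [Fin.insertNth_apply_same]
      exact fun _ _ => rfl
    · show (fun l => (c.insertNth (chi u) q : Fin (m + 1) → C) (c.succAbove l)) ∈
        interior (dropSet K c u n)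
      have : (fun l => (c.insertNth (chi u) q : Fin (m + 1) → C) (c.succAbove l)) = q := by
        funext l
        rw [Fin.insertNth_apply_succAbove]
      rw [this]
      exact hq
  have : (c.insertNth (chi u) q : Fin (m + 1) → C) ∈ interior K :=
    interior_maximal hVK hV hmem
  rw [hK] at this
  exact this

/-- Transfinite recursion choosing points with prescribed properties. -/
theorem exists_rec {I A : Type} [LinearOrder I] [WellFoundedLT I] [Inhabited A]
    (P : I → (I → A) → A → Prop) (hP : ∀ i f, ∃ x, P i f x)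
    (hcongr : ∀ i f g x, (∀ j < i, f j = g j) → P i f x → P i g x) :
    ∃ e : I → A, ∀ i, P i e (e i) := by
  classical
  let F : (i : I) → ((j : I) → j < i → A) → A := fun i rec =>
    Classical.choose (hP i (fun j => if h : j < i then rec j h else default))
  let e : I → A := (wellFounded_lt (α := I)).fix F
  refine ⟨e, fun i => ?_⟩
  have h1 : e i = Classical.choose (hP i (fun j => if _h : j < i then e j else default)) := by
    show (wellFounded_lt (α := I)).fix F i = _
    rw [WellFounded.fix_eq]
  have h2 := Classical.choose_spec (hP i (fun j => if _h : j < i then e j else default))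
  rw [← h1] at h2
  refine hcongr i _ _ _ ?_ h2
  intro j hj
  simp [hj]

section

variable {I : Type} [LinearOrder I] [WellFoundedLT I]
  (Kset : I → Σ m, Set (Fin m → C))

/-- The requirement on the point chosen at stage `i`. -/
def Req (i : I) (f : I → C) (x : C) : Prop :=
  ∀ j < i, ∀ (ws : List W) (m : ℕ) (K : Set (Fin (m + 1) → C)), der (Kset j) ws = ⟨m + 1, K⟩ →
    IsClosed K → ∀ (c : Fin (m + 1)) (p : Fin m → I), (∀ l, p l < i) →
    interior {y | (c.insertNth y (fun l => f (p l)) : Fin (m + 1) → C) ∈ K} = ∅ →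
    (c.insertNth x (fun l => f (p l)) : Fin (m + 1) → C) ∉ K

omit [WellFoundedLT I] in
theorem Req_congr (i : I) (f g : I → C) (x : C) (h : ∀ j < i, f j = g j)
    (hf : Req Kset i f x) : Req Kset i g x := by
  intro j hj ws m K hK hcl c p hp
  have h1 : (fun l => g (p l)) = fun l => f (p l) := by
    funext l
    rw [h (p l) (hp l)]
  rw [h1]
  exact hf j hj ws m K hK hcl c p hp

omit [WellFoundedLT I] in
theorem Req_exists (hI : ∀ i : I, (Set.Iio i).Countable) (i : I) (f : I → C) :
    ∃ x, Req Kset i f x := by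
  have : Countable (Set.Iio i) := (hI i).to_subtype
  -- the index type of bad sets
  let T := (Set.Iio i) × List W × (Σ m : ℕ, Fin (m + 1) × (Fin m → Set.Iio i))
  let B : T → Set C := fun τ =>
    {x | ∃ K : Set (Fin (τ.2.2.1 + 1) → C), der (Kset τ.1) τ.2.1 = ⟨τ.2.2.1 + 1, K⟩ ∧
      IsClosed K ∧
      interior {y | (τ.2.2.2.1.insertNth y (fun l => f (τ.2.2.2.2 l)) :
        Fin (τ.2.2.1 + 1) → C) ∈ K} = ∅ ∧
      (τ.2.2.2.1.insertNth x (fun l => f (τ.2.2.2.2 l)) : Fin (τ.2.2.1 + 1) → C) ∈ K}
  have hB : ∀ τ, Dense (closure (B τ))ᶜ := by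
    intro τ
    rw [← interior_eq_empty_iff_dense_compl]
    by_cases hne : (B τ).Nonempty
    · obtain ⟨x, K, h1, h2, h3, h4⟩ := hne
      have hsub : B τ ⊆ {y | (τ.2.2.2.1.insertNth y (fun l => f (τ.2.2.2.2 l)) :
        Fin (τ.2.2.1 + 1) → C) ∈ K} := by
        rintro y ⟨K', h1', h2', h3', h4'⟩
        have hKK : K' = K := by
          have := h1'.symm.trans h1
          simpa using this
        subst hKK
        exact h4'
      have hcl : IsClosed {y | (τ.2.2.2.1.insertNth y (fun l => f (τ.2.2.2.2 l)) :
        Fin (τ.2.2.1 + 1) → C) ∈ K} := by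
        apply h2.preimage
        exact Continuous.finInsertNth (A := fun _ => C) _ continuous_id continuous_const
      have h5 : closure (B τ) ⊆ _ := closure_minimal hsub hcl
      exact Set.subset_eq_empty (interior_mono h5) h3
    · rw [Set.not_nonempty_iff_eq_empty.1 hne]
      simp
  have hD : Dense (⋂ τ, (closure (B τ))ᶜ) :=
    dense_iInter_of_isOpen (fun τ => isClosed_closure.isOpen_compl) hB
  obtain ⟨x, hx⟩ := hD.nonempty
  refine ⟨x, ?_⟩
  intro j hj ws m K hK hcl c p hp hint hmem
  have h1 := Set.mem_iInter.1 hx (⟨⟨j, hj⟩, ws, ⟨m, c, fun l => ⟨p l, hp l⟩⟩⟩ : T)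
  apply h1
  apply subset_closure
  exact ⟨K, hK, hcl, hint, hmem⟩


omit [WellFoundedLT I] in
theorem avoid {e : I → C} (he : ∀ i, Req Kset i e (e i)) :
    ∀ (m : ℕ) (j : I) (ws : List W) (K : Set (Fin m → C)), der (Kset j) ws = ⟨m, K⟩ →
      IsClosed K → interior K = ∅ → ∀ α : Fin m → I, Injective α → (∀ l, j < α l) →
      (fun l => e (α l)) ∉ K := by
  intro m
  induction m with
  | zero =>
    intro j ws K _ _ hint α _ _ hmem
    have h1 : K = univ := by
      ext q
      have : q = fun l => e (α l) := Subsingleton.elim _ _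
      rw [this]
      simp [hmem]
    rw [h1, interior_univ] at hint
    have h2 : (fun l => e (α l)) ∈ (univ : Set (Fin 0 → C)) := mem_univ _
    rw [hint] at h2
    exact h2
  | succ m ih =>
    intro j ws K hK hcl hint α hα hj
    obtain ⟨c, hc⟩ := Finite.exists_max α
    have hlt : ∀ l : Fin m, α (c.succAbove l) < α c := by
      intro l
      refine lt_of_le_of_ne (hc _) ?_
      intro h
      exact (Fin.succAbove_ne c l) (hα h)
    have h1 : ∀ (u : Finset ℕ) (n : ℕ), (fun l => e (α (c.succAbove l))) ∉ dropSet K c u n := by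
      intro u n
      exact ih j _ _ (der_concat hK c u n) (dropSet_isClosed hcl c u n)
        (dropSet_interior hint c u n) (fun l => α (c.succAbove l))
        (hα.comp Fin.succAbove_right_injective) (fun l => hj _)
    have h2 : interior {y | (c.insertNth y (fun l => e (α (c.succAbove l))) :
        Fin (m + 1) → C) ∈ K} = ∅ := by
      by_contra hne
      obtain ⟨y, hy⟩ := Set.nonempty_iff_ne_empty.2 hne
      obtain ⟨u, n, hun, _⟩ := exists_cyl_subset isOpen_interior hy
      refine h1 u n fun x hx => ?_
      have h6 := interior_subset (hun hx)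
      exact h6
    have h3 := he (α c) j (hj c) ws m K hK hcl c (fun l => α (c.succAbove l)) hlt h2
    have h4 : (c.insertNth (e (α c)) (fun l => e (α (c.succAbove l))) : Fin (m + 1) → C) =
        fun l => e (α l) := Fin.insertNth_self_removeNth c (fun l => e (α l))
    rw [h4] at h3
    exact h3

end

end Pool.Agent.Lib.MP_919a9a_lc
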