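import Pool.Agent.Lib.MP_919a9a_lc.Cantor

/-!
# A twisted order embedding of Cantor space into the reals

We fix signs `eps n x` depending only on the first `n` coordinates of `x` such that the signs at
finitely many distinct finite modifications of one node can be prescribed arbitrarily, and we embed
Cantor space into `ℝ` by the order reversing the branching at nodes with `eps = true`.
-/

set_option autoImplicit false

namespace Pool.Agent.Lib.MP_919a9a_lc

open Set Function

/-- The indicator of a finite set as a point of Cantor space. -/
def chi (u : Finset ℕ) : C := fun i => decide (i ∈ u)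

/-- The data attached to level `n`: a finite set `u` and a finite family `T` of finite sets. -/
noncomputable def levelData (n : ℕ) : Finset ℕ × Finset (Finset ℕ) :=
  (Encodable.decode (α := Finset ℕ × Finset (Finset ℕ)) n.unpair.1).getD (∅, ∅)

theorem levelData_pair (d : Finset ℕ × Finset (Finset ℕ)) (N : ℕ) :
    levelData (Nat.pair (Encodable.encode d) N) = d := by
  simp [levelData]

/-- The sign of the node `x | n`. -/
noncomputable def eps (n : ℕ) (x : C) : Bool :=
  open Classical in
  decide (∃ g ∈ (levelData n).2, ∀ i < n, x i = act g (chi (levelData n).1) i)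

theorem eps_congr {n : ℕ} {x y : C} (h : ∀ i < n, x i = y i) : eps n x = eps n y := by
  unfold eps
  congr 1
  apply propext
  constructor
  · rintro ⟨g, hg, h1⟩
    exact ⟨g, hg, fun i hi => by rw [← h i hi]; exact h1 i hi⟩
  · rintro ⟨g, hg, h1⟩
    exact ⟨g, hg, fun i hi => by rw [h i hi]; exact h1 i hi⟩

/-- The independence property of the signs. -/
theorem exists_level (u : Finset ℕ) (G T : Finset (Finset ℕ)) (m : ℕ) :
    ∃ n, m ≤ n ∧ (∀ g ∈ G, ∀ i ∈ g, i < n) ∧ (∀ i ∈ u, i < n) ∧
      ∀ g ∈ G, (eps n (act g (chi u)) = true ↔ g ∈ T) := by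
  -- a bound for all the elements
  obtain ⟨N, hN⟩ : ∃ N, ∀ g ∈ G ∪ T, ∀ i ∈ g, i < N := by
    refine ⟨(G ∪ T).sup (fun g => g.sup fun i => i + 1), ?_⟩
    intro g hg i hi
    have h1 : i + 1 ≤ g.sup fun i => i + 1 := Finset.le_sup (f := fun i => i + 1) hi
    have h2 : (g.sup fun i => i + 1) ≤ (G ∪ T).sup (fun g => g.sup fun i => i + 1) :=
      Finset.le_sup (f := fun g : Finset ℕ => g.sup fun i => i + 1) hg
    omega
  obtain ⟨N', hN'⟩ : ∃ N', ∀ i ∈ u, i < N' := by
    refine ⟨u.sup (fun i => i + 1), ?_⟩
    intro i hi
    have h1 : i + 1 ≤ u.sup fun i => i + 1 := Finset.le_sup (f := fun i => i + 1) hi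
    omega
  let M := max m (max N N')
  let n := Nat.pair (Encodable.encode (u, T)) M
  have hMn : M ≤ n := Nat.right_le_pair _ _
  have hm : m ≤ n := le_trans (le_max_left _ _) hMn
  have hNn : N ≤ n := le_trans (le_trans (le_max_left _ _) (le_max_right _ _)) hMn
  have hN'n : N' ≤ n := le_trans (le_trans (le_max_right _ _) (le_max_right _ _)) hMn
  have hd : levelData n = (u, T) := levelData_pair _ _
  refine ⟨n, hm, fun g hg i hi => lt_of_lt_of_le (hN g (Finset.mem_union_left _ hg) i hi) hNn,
    fun i hi => lt_of_lt_of_le (hN' i hi) hN'n, ?_⟩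
  intro g hg
  unfold eps
  rw [hd]
  simp only [decide_eq_true_eq]
  constructor
  · rintro ⟨g', hg', h⟩
    have : g = g' := by
      ext i
      by_cases hi : i < n
      · have h1 := h i hi
        simp only [act_apply] at h1
        have h2 : decide (i ∈ g) = decide (i ∈ g') := by
          revert h1
          cases chi u i <;> cases decide (i ∈ g) <;> cases decide (i ∈ g') <;> simp
        exact decide_eq_decide.1 h2
      · constructor
        · intro h1
          exact absurd (lt_of_lt_of_le (hN g (Finset.mem_union_left _ hg) i h1) hNn) hi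
        · intro h1
          exact absurd (lt_of_lt_of_le (hN g' (Finset.mem_union_right _ hg') i h1) hNn) hi
    rw [this]
    exact hg'
  · intro hT
    exact ⟨g, hT, fun _ _ => rfl⟩

/-- The twist of Cantor space. -/
noncomputable def twist (x : C) : C := fun n => xor (x n) (eps n x)

theorem twist_agree {x y : C} {n : ℕ} (h : ∀ i < n, x i = y i) :
    ∀ i < n, twist x i = twist y i := by
  intro i hi
  unfold twist
  rw [h i hi, eps_congr (fun j hj => h j (lt_trans hj hi))]

/-- The embedding of Cantor space into the reals. -/
noncomputable def phi (x : C) : ℝ := Cardinal.cantorFunction (1 / 3) (twist x)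

theorem phi_lt {x y : C} {n : ℕ} (h : ∀ i < n, x i = y i) (hx : xor (x n) (eps n x) = false)
    (hy : xor (y n) (eps n y) = true) : phi x < phi y :=
  Cardinal.increasing_cantorFunction (by norm_num) (by norm_num) (twist_agree h) hx hy

theorem exists_first_diff {x y : C} (h : x ≠ y) : ∃ n, (∀ i < n, x i = y i) ∧ x n ≠ y n := by
  classical
  have h1 : ∃ n, x n ≠ y n := by
    by_contra h2
    push Not at h2
    exact h (funext h2)
  refine ⟨Nat.find h1, fun i hi => ?_, Nat.find_spec h1⟩
  by_contra h3
  exact Nat.find_min h1 hi h3

theorem twist_injective : Injective twist := by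
  intro x y hxy
  by_contra h
  obtain ⟨n, hn, hne⟩ := exists_first_diff h
  have h1 : twist x n = twist y n := by rw [hxy]
  unfold twist at h1
  rw [eps_congr hn] at h1
  apply hne
  revert h1
  cases x n <;> cases y n <;> cases eps n y <;> simp

theorem phi_injective : Injective phi :=
  (Cardinal.cantorFunction_injective (by norm_num) (by norm_num)).comp twist_injective

theorem twist_continuous : Continuous twist := by
  refine continuous_pi fun i => ?_
  apply continuous_of_initial (i + 1)
  intro z w hzw
  unfold twist
  rw [hzw i (by omega), eps_congr (fun j hj => hzw j (by omega))]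

theorem cantorFunction_continuous : Continuous (Cardinal.cantorFunction (1 / 3 : ℝ)) := by
  unfold Cardinal.cantorFunction
  refine continuous_tsum (u := fun n : ℕ => (1 / 3 : ℝ) ^ n) ?_ ?_ ?_
  · intro n
    apply continuous_of_initial (n + 1)
    intro x y h
    exact Cardinal.cantorFunctionAux_eq (h n (by omega))
  · exact summable_geometric_of_lt_one (by norm_num) (by norm_num)
  · intro n x
    unfold Cardinal.cantorFunctionAux
    cases x n
    · simp
    · simp

theorem phi_continuous : Continuous phi := cantorFunction_continuous.comp twist_continuous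

theorem phi_isEmbedding : Topology.IsEmbedding phi :=
  (phi_continuous.isClosedEmbedding phi_injective).isEmbedding

end Pool.Agent.Lib.MP_919a9a_lc
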